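import Pool.Agent.H12.QN.Asm

/-! MP_fa59e7_an, withdrawn hand-in QuadraticPhases (routine from published maximal estimates for quadratic Weyl sums):
the estimate of the question for coefficients of bounded variation times a quadratic phase. -/

open Pool.QN

theorem Pool.QN.quadratic_phases_result :
    ∀ c B ε : ℝ, 0 < c → 0 < ε →
      ∃ C : ℝ, 0 < C ∧ ∀ φ : ℝ → ℝ, IsCurve c B φ →
        ∀ (r d : ℤ), d ≠ 0 → ∀ K : ℕ, 1 ≤ K → ∀ (w : ℕ → ℂ) (α β : ℝ),
          ∫ x in (-1:ℝ)..1, ‖∑ k ∈ Finset.range K, w k * Complex.exp (2 * Real.pi * Complex.I *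
            (((r:ℂ) + d * k) * (x + α) + ((r:ℂ) + d * k) ^ 2 * (φ x + β)))‖ ^ 4 ≤
            C * (K:ℝ) ^ (2 + ε) *
              (‖w 0‖ + ∑ k ∈ Finset.range (K - 1), ‖w (k + 1) - w k‖) ^ 4 :=
  fun c B ε hc hε => quad_phases pc_all c B ε hc hε
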